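import Pool.Agent.H25.HK.Targets

/-!
# (BD) the entire part of the Mellin transform is bounded in vertical strips
-/

set_option autoImplicit false

open Complex MeasureTheory Set

namespace Pool.Agent.H11.HK

open Pool.Agent.H25.HK

theorem conv (P : WeakFEPair ℂ) (s : ℂ) : MellinConvergent P.f_modif s :=
  (P.isStrongFEPair_toStrongFEPair.hasMellin s).1

theorem normeq (P : WeakFEPair ℂ) (s : ℂ) (t : ℝ) (ht : 0 < t) :
    ‖(t : ℂ) ^ (s - 1) • P.f_modif t‖ = t ^ (s.re - 1) * ‖P.f_modif t‖ := by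
  rw [norm_smul, Complex.norm_cpow_eq_rpow_re_of_pos ht]
  simp

theorem bd : T_BD := by
  intro P b
  have hi : ∀ c : ℝ, IntegrableOn (fun t : ℝ => t ^ (c - 1) * ‖P.f_modif t‖) (Ioi 0) := by
    intro c
    have h1 := (conv P c).norm
    refine (integrableOn_congr_fun ?_ measurableSet_Ioi).mp h1
    intro t ht
    have := normeq P c t ht
    simpa using this
  refine ⟨∫ t in Ioi (0:ℝ), (t ^ (b - 1) * ‖P.f_modif t‖ + t ^ (-b - 1) * ‖P.f_modif t‖), ?_⟩
  intro s hs
  obtain ⟨hs1, hs2⟩ := abs_le.mp hs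
  change ‖mellin P.f_modif s‖ ≤ _
  rw [mellin]
  refine (norm_integral_le_integral_norm _).trans ?_
  refine setIntegral_mono_on (conv P s).norm ((hi b).add (hi (-b))) measurableSet_Ioi ?_
  intro t ht
  have ht0 : (0:ℝ) < t := ht
  rw [normeq P s t ht0, ← add_mul]
  refine mul_le_mul_of_nonneg_right ?_ (norm_nonneg _)
  rcases le_total 1 t with h | h
  · have h1 : t ^ (s.re - 1) ≤ t ^ (b - 1) := Real.rpow_le_rpow_of_exponent_le h (by linarith)
    have h2 : 0 ≤ t ^ (-b - 1) := (Real.rpow_pos_of_pos ht0 _).le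
    linarith
  · have h1 : t ^ (s.re - 1) ≤ t ^ (-b - 1) :=
      Real.rpow_le_rpow_of_exponent_ge ht0 h (by linarith)
    have h2 : 0 ≤ t ^ (b - 1) := (Real.rpow_pos_of_pos ht0 _).le
    linarith

end Pool.Agent.H11.HK
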