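import Pool.Agent.H25.HK.Targets

/-!
# (AE) the identity `Λ^N = ∏ ζ_K^a` for `Re s > 1`
-/

set_option autoImplicit false

open NumberField Complex Filter Topology

namespace Pool.Agent.H11.HK

open Pool.Agent.H25.HK Pool.Agent.H25

section euler

variable (h : ℕ → ℂ) (h0 : h 0 = 0) (h1 : h 1 = 1) (hm : ∀ a b, h (a * b) = h a * h b)
  (hle : ∀ a, ‖h a‖ ≤ 1)

/-- `m ↦ h(m) m^{-s}` -/
noncomputable def hmz (s : ℂ) : ℕ →*₀ ℂ :=
  { toFun := fun m => h m * (m : ℂ) ^ (-s)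
    map_zero' := by simp [h0]
    map_one' := by simp [h1]
    map_mul' := fun x y => by
      rw [hm]
      push_cast
      rw [natCast_mul_natCast_cpow]
      ring }

include hle in
theorem hmz_sum {s : ℂ} (hs : 1 < s.re) : Summable fun m => ‖hmz h h0 h1 hm s m‖ := by
  have h2 : Summable fun m : ℕ => (m : ℝ) ^ (-s.re) :=
    Real.summable_nat_rpow.2 (by linarith)
  refine Summable.of_nonneg_of_le (fun m => norm_nonneg _) (fun m => ?_) h2
  change ‖h m * (m : ℂ) ^ (-s)‖ ≤ _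
  rcases Nat.eq_zero_or_pos m with rfl | hm
  · rw [h0, zero_mul, norm_zero]
    exact Real.rpow_nonneg (Nat.cast_nonneg _) _
  · rw [norm_mul, norm_natCast_cpow_of_pos hm, neg_re]
    have := hle m
    have h3 : 0 ≤ (m : ℝ) ^ (-s.re) := Real.rpow_nonneg (Nat.cast_nonneg _) _
    nlinarith

include h0 h1 hm hle in
theorem ser_ne {s : ℂ} (hs : 1 < s.re) : ∑' m : ℕ, h m * (m : ℂ) ^ (-s) ≠ 0 := by
  have key := EulerProduct.exp_tsum_primes_log_eq_tsum (hmz_sum h h0 h1 hm hle hs)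
  have h4 : ∑' m : ℕ, h m * (m : ℂ) ^ (-s) = ∑' m : ℕ, hmz h h0 h1 hm s m := rfl
  rw [h4, ← key]
  exact Complex.exp_ne_zero _

include h0 h1 hm hle in
theorem ser_prod {s : ℂ} (hs : 1 < s.re) :
    HasProd (fun p : Nat.Primes => (1 - h p * ((p : ℕ) : ℂ) ^ (-s))⁻¹)
      (∑' m : ℕ, h m * (m : ℂ) ^ (-s)) := by
  have key := EulerProduct.eulerProduct_completely_multiplicative_hasProd
    (hmz_sum h h0 h1 hm hle hs)
  have e1 : (fun p : Nat.Primes => (1 - h p * ((p : ℕ) : ℂ) ^ (-s))⁻¹) =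
      fun p : Nat.Primes => (1 - hmz h h0 h1 hm s p)⁻¹ := rfl
  have e2 : ∑' m : ℕ, h m * (m : ℂ) ^ (-s) = ∑' m : ℕ, hmz h h0 h1 hm s m := rfl
  rw [e1, e2]
  exact key

end euler

theorem hasProd_zpow {β : Type} {f : β → ℂ} {a : ℂ} (h : HasProd f a) (ha : a ≠ 0) (c : ℤ) :
    HasProd (fun b => f b ^ c) (a ^ c) := by
  have h1 := Filter.Tendsto.zpow₀ h c (Or.inl ha)
  refine h1.congr fun s => ?_
  rw [Finset.prod_zpow]

theorem ae (hEP : T_EP) (hPE : T_PE) (hTR : T_TR) (hPW : T_PW) (hAI : T_AI) (hLP : T_LP)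
    (hAL : DL.T_AL) (hAH : DL.T_AH) : T_AE := by
  classical
  intro R hR
  obtain ⟨N, s, a, hN, hAI1⟩ := hAI (R.K ≃ₐ[ℚ] R.K) R.V R.rho hR
  choose α hα1 hα2 using fun p => hAL R p
  choose h hz ho hm hle hprod using fun j : Fin R.dim => hAH (fun p => α p j) (fun p => hα1 p j)
  choose k kz ko km kle kser kpow using fun H : Subgroup (R.K ≃ₐ[ℚ] R.K) => hEP (FF R H)
  refine ⟨N, s, a, h, hN, hAI1, hz, ho, hm, hle, ?_⟩
  intro Λ hΛ z hz1
  -- the value of Λ
  have hL1 : HasProd (fun p : Nat.Primes => ∏ j, (1 - α p j * ((p : ℕ) : ℂ) ^ (-z))⁻¹)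
      (∏ j, ∑' m : ℕ, h j m * (m : ℂ) ^ (-z)) := hasProd_prod fun j _ => hprod j z hz1
  have hL2 : (fun p : Nat.Primes => ∏ j, (1 - α p j * ((p : ℕ) : ℂ) ^ (-z))⁻¹) =
      fun p => R.euler p z := by
    funext p
    unfold DL.ArtinRep.euler
    rw [hα2, Finset.prod_inv_distrib]
  have hΛz : Λ z = ∏ j, ∑' m : ℕ, h j m * (m : ℂ) ^ (-z) := by
    rw [hL2] at hL1
    exact (hΛ.2 z hz1).unique hL1
  have hΛne : Λ z ≠ 0 := by
    rw [hΛz]
    exact Finset.prod_ne_zero_iff.mpr fun j _ => ser_ne (h j) (hz j) (ho j) (hm j) (hle j) hz1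
  have hζne : ∀ H, dedekindZeta (FF R H) z ≠ 0 := by
    intro H
    rw [kser H z hz1]
    exact Finset.prod_ne_zero_iff.mpr fun j _ =>
      ser_ne (k H j) (kz H j) (ko H j) (km H j) (kle H j) hz1
  refine ⟨hΛz, hζne, ?_⟩
  have hζ1 : ∀ H, HasProd (fun p : Nat.Primes =>
      ∏ j, (1 - k H j p * ((p : ℕ) : ℂ) ^ (-z))⁻¹) (dedekindZeta (FF R H) z) := by
    intro H
    rw [kser H z hz1]
    exact hasProd_prod fun j _ => ser_prod (k H j) (kz H j) (ko H j) (km H j) (kle H j) hz1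
  -- power sums
  have hps : ∀ (p : Nat.Primes) (r : ℕ), 1 ≤ r →
      (N : ℂ) * ∑ j, α p j ^ r = ∑ H ∈ s, (a H : ℂ) * ∑ j, k H j p ^ r := by
    intro p r hr
    have e1 : LinearMap.trace ℂ R.V (R.fr p ^ r) = ∑ j, α p j ^ r :=
      hPW R.V (R.fr p) (α p) (hα2 p) r hr
    rw [← e1, hTR R p r hr]
    have : Fintype (R.In p) := Fintype.ofFinite _
    rw [finsum_eq_sum_of_fintype, mul_left_comm, Finset.mul_sum]
    simp_rw [hAI1]
    rw [Finset.sum_comm, Finset.mul_sum]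
    refine Finset.sum_congr rfl fun H _ => ?_
    rw [kpow H p r p.2 hr, hPE R H p r hr, finsum_eq_sum_of_fintype, Finset.mul_sum,
      Finset.mul_sum, Finset.mul_sum]
    refine Finset.sum_congr rfl fun g _ => ?_
    ring
  -- the family
  have hfac : ∀ p : Nat.Primes,
      (∏ j, (1 - α p j * ((p : ℕ) : ℂ) ^ (-z))⁻¹) ^ (N : ℤ) *
        ∏ H ∈ s, (∏ j, (1 - k H j p * ((p : ℕ) : ℂ) ^ (-z))⁻¹) ^ (-(a H)) = 1 := by
    intro p
    have hX : ‖((p : ℕ) : ℂ) ^ (-z)‖ < 1 := by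
      rw [norm_natCast_cpow_of_pos p.2.pos, neg_re]
      exact Real.rpow_lt_one_of_one_lt_of_neg (by exact_mod_cast p.2.one_lt) (by linarith)
    have := hLP (Option s) (fun i => i.elim R.dim fun H => Module.finrank ℚ (FF R H.1))
      (fun i => i.elim (N : ℤ) fun H => -(a H.1))
      (fun i => match i with
        | none => α p
        | some H => fun j => k H.1 j p)
      (fun i j => by
        match i with
        | none => exact hα1 p j
        | some H => exact kle H.1 j p)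
      (fun r hr => by
        rw [Fintype.sum_option]
        have h1 := hps p r hr
        rw [← Finset.sum_coe_sort s] at h1
        simp only [Option.elim_none, Option.elim_some, Int.cast_natCast, Int.cast_neg, neg_mul,
          Finset.sum_neg_distrib]
        rw [← sub_eq_add_neg, sub_eq_zero]
        exact h1) _ hX
    rw [Fintype.prod_option] at this
    rw [← Finset.prod_coe_sort s]
    exact this
  have hne : ∀ H ∈ s, dedekindZeta (FF R H) z ≠ 0 := fun H _ => hζne H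
  have hA : HasProd (fun p : Nat.Primes =>
      (∏ j, (1 - α p j * ((p : ℕ) : ℂ) ^ (-z))⁻¹) ^ (N : ℤ) *
        ∏ H ∈ s, (∏ j, (1 - k H j p * ((p : ℕ) : ℂ) ^ (-z))⁻¹) ^ (-(a H)))
      (Λ z ^ (N : ℤ) * ∏ H ∈ s, dedekindZeta (FF R H) z ^ (-(a H))) := by
    refine HasProd.mul ?_ (hasProd_prod fun H _ => hasProd_zpow (hζ1 H) (hζne H) _)
    rw [← hΛz] at hL1
    exact hasProd_zpow hL1 hΛne _
  have hB : HasProd (fun _ : Nat.Primes => (1:ℂ)) 1 := hasProd_one
  simp_rw [hfac] at hA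
  have hC := hA.unique hB
  simp_rw [zpow_neg] at hC
  rw [Finset.prod_inv_distrib] at hC
  have hD : ∏ H ∈ s, dedekindZeta (FF R H) z ^ (a H) ≠ 0 :=
    Finset.prod_ne_zero_iff.mpr fun H _ => zpow_ne_zero _ (hζne H)
  rw [zpow_natCast] at hC
  field_simp at hC
  exact hC

end Pool.Agent.H11.HK
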