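import Pool.Agent.H25.HK.Targets
import Pool.Agent.H48.DL.AF

/-!
# (LK) the Dedekind zeta function as an `LF`
-/

set_option autoImplicit false

open NumberField NumberField.InfinitePlace Complex Filter Topology

namespace Pool.Agent.H11.HK

open Pool.Agent.H25.HK Pool.Agent.H25

theorem zeta_conj (K : Type) [Field K] [NumberField K] (s : ℂ) :
    (starRingEnd ℂ) (dedekindZeta K ((starRingEnd ℂ) s)) = dedekindZeta K s := by
  unfold dedekindZeta LSeries
  rw [Complex.conj_tsum]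
  refine tsum_congr fun n => ?_
  rcases Nat.eq_zero_or_pos n with rfl | hn
  · simp
  · rw [LSeries.term_of_ne_zero hn.ne', LSeries.term_of_ne_zero hn.ne', map_div₀]
    congr 1
    · simp
    · have := Pool.Agent.H48.DL.cpow_conj_pos (c := (n : ℝ)) (by exact_mod_cast hn)
        ((starRingEnd ℂ) s)
      simpa using this

theorem Z_conj (K : Type) [Field K] [NumberField K] (Z : ℂ → ℂ) (hZ : IsZ K Z) (s : ℂ)
    (hs : 0 < s.im) : (starRingEnd ℂ) (Z ((starRingEnd ℂ) s)) = Z s := by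
  have hU : IsOpen {s : ℂ | 0 < s.im} := isOpen_lt continuous_const Complex.continuous_im
  have h1 : AnalyticOnNhd ℂ Z {s : ℂ | 0 < s.im} :=
    DifferentiableOn.analyticOnNhd
      (fun s hs => (hZ.1 s (ne_of_gt hs)).differentiableWithinAt) hU
  have h2 : AnalyticOnNhd ℂ ((starRingEnd ℂ) ∘ Z ∘ (starRingEnd ℂ)) {s : ℂ | 0 < s.im} :=
    DifferentiableOn.analyticOnNhd
      (fun s hs => by
        have h3 : DifferentiableAt ℂ Z ((starRingEnd ℂ) s) := hZ.1 _ (by
          rw [Complex.conj_im]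
          exact (neg_lt_zero.mpr hs).ne)
        exact (differentiableAt_conj_conj_iff.mpr h3).differentiableWithinAt) hU
  have hp : (⟨2, 1⟩ : ℂ) ∈ {s : ℂ | 0 < s.im} := by
    change (0:ℝ) < 1
    norm_num
  have hev : (starRingEnd ℂ) ∘ Z ∘ (starRingEnd ℂ) =ᶠ[𝓝 (⟨2, 1⟩ : ℂ)] Z := by
    have ho : IsOpen {s : ℂ | 1 < s.re} := isOpen_lt continuous_const Complex.continuous_re
    filter_upwards [ho.mem_nhds (show (⟨2, 1⟩ : ℂ) ∈ {s : ℂ | 1 < s.re} by
      change (1:ℝ) < 2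
      norm_num)] with t ht
    have ht' : 1 < t.re := ht
    change (starRingEnd ℂ) (Z ((starRingEnd ℂ) t)) = Z t
    rw [hZ.2 t ht', hZ.2 _ (by rw [Complex.conj_re]; exact ht'), zeta_conj]
  exact h2.eqOn_of_preconnected_of_eventuallyEq h1 (convex_halfSpace_im_gt 0).isPreconnected hp
    hev hs

theorem gK_eq (K : Type) [Field K] [NumberField K] {s : ℂ} (hs : s.im ≠ 0) :
    gK K s = (Gammaℂ s * Complex.cos (Real.pi * s / 2)) ^ (nrRealPlaces K + nrComplexPlaces K) *
      (Gammaℂ s * Complex.sin (Real.pi * s / 2)) ^ (nrComplexPlaces K) * gK K (1 - s) := by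
  unfold gK
  have h3 : Complex.cos (Real.pi * (s - 1) / 2) = Complex.sin (Real.pi * s / 2) := by
    rw [← Complex.cos_sub_pi_div_two]
    congr 1
    ring
  have e1 := Pool.Agent.H48.DL.gammaR_one hs
  have e2 := Pool.Agent.H48.DL.gammaR_two hs
  have e4 : (1 - s + 1 : ℂ) = 2 - s := by ring
  rw [h3] at e2
  rw [← Gammaℝ_mul_Gammaℝ_add_one (1 - s), e4]
  have e3 : Gammaℂ s ^ nrComplexPlaces K =
      Gammaℝ s ^ nrComplexPlaces K * Gammaℝ (s + 1) ^ nrComplexPlaces K := by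
    rw [← Gammaℝ_mul_Gammaℝ_add_one s, mul_pow]
  rw [e3, e2]
  nth_rewrite 1 2 [e1]
  rw [pow_add]
  ring

theorem gK_ne (K : Type) [Field K] [NumberField K] {s : ℂ} (hs : s.im ≠ 0) : gK K s ≠ 0 := by
  unfold gK
  rw [← Gammaℝ_mul_Gammaℝ_add_one]
  have h1 := Pool.Agent.H48.DL.gammaR_ne hs
  have h2 : Gammaℝ (s + 1) ≠ 0 := Pool.Agent.H48.DL.gammaR_ne (by simpa using hs)
  exact mul_ne_zero (pow_ne_zero _ h1) (pow_ne_zero _ (mul_ne_zero h1 h2))

theorem fe' (K : Type) [Field K] [NumberField K] (Z : ℂ → ℂ) (hZ : IsZ K Z)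
    (hc : ∀ s : ℂ, s.im ≠ 0 → comp K Z s = comp K Z (1 - s)) (s : ℂ) (hs : 0 < s.im) :
    Z s * (((|(discr K : ℝ)| : ℝ) : ℂ) ^ (s - 1 / 2) *
        (Gammaℂ s * Complex.cos (Real.pi * s / 2)) ^ (nrRealPlaces K + nrComplexPlaces K) *
        (Gammaℂ s * Complex.sin (Real.pi * s / 2)) ^ (nrComplexPlaces K)) =
      (starRingEnd ℂ) (Z (1 - (starRingEnd ℂ) s)) := by
  have hs0 : s.im ≠ 0 := hs.ne'
  have hd : (((|(discr K : ℝ)| : ℝ)) : ℂ) ≠ 0 := by
    have : (discr K : ℝ) ≠ 0 := by exact_mod_cast discr_ne_zero K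
    exact_mod_cast abs_ne_zero.mpr this
  have h1 := hc s hs0
  unfold comp at h1
  rw [gK_eq K hs0] at h1
  have hg : gK K (1 - s) ≠ 0 := gK_ne K (by simpa using hs0)
  have hd2 : (((|(discr K : ℝ)| : ℝ)) : ℂ) ^ ((1 - s) / 2) ≠ 0 := by
    rw [Ne, Complex.cpow_eq_zero_iff]
    exact fun hh => hd hh.1
  have hd3 : (((|(discr K : ℝ)| : ℝ)) : ℂ) ^ (s / 2) =
      (((|(discr K : ℝ)| : ℝ)) : ℂ) ^ (s - 1 / 2) * (((|(discr K : ℝ)| : ℝ)) : ℂ) ^ ((1 - s) / 2) := by
    rw [← Complex.cpow_add _ _ hd]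
    congr 1
    ring
  rw [hd3] at h1
  have h2 : Z (1 - s) = (starRingEnd ℂ) (Z (1 - (starRingEnd ℂ) s)) := by
    have h3 := Z_conj K Z hZ (1 - (starRingEnd ℂ) s) (by simpa using hs)
    have h4 := congrArg (starRingEnd ℂ) h3
    simpa using h4
  rw [← h2]
  refine mul_right_cancel₀ (mul_ne_zero hd2 hg) ?_
  linear_combination h1

theorem lk (hHE : T_HE) (hGW : T_GW) (hEP : T_EP) : T_LK := by
  intro K _ _
  obtain ⟨Z, hZ, hc, hb⟩ := hHE K
  obtain ⟨h, h0, h1, hm, hle, hser, -⟩ := hEP K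
  have hd : (0:ℝ) < |(discr K : ℝ)| := by
    have : (discr K : ℝ) ≠ 0 := by exact_mod_cast discr_ne_zero K
    exact abs_pos.mpr this
  have hd' : (((|(discr K : ℝ)| : ℝ)) : ℂ) ≠ 0 := by exact_mod_cast hd.ne'
  have hn : (nrRealPlaces K + nrComplexPlaces K) + nrComplexPlaces K = Module.finrank ℚ K := by
    rw [← card_add_two_mul_card_eq_rank K]
    ring
  have hfe := fe' K Z hZ hc
  refine ⟨Z,
    { n := Module.finrank ℚ K
      h := h
      h_zero := h0
      h_one := h1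
      h_mul := hm
      h_le := hle
      κ := fun j => if (j : ℕ) < nrRealPlaces K + nrComplexPlaces K then 0 else 1
      κ_mem := fun j => by split_ifs <;> simp
      A := |(discr K : ℝ)|
      A_pos := hd
      ε := 1
      norm_ε := norm_one
      num := Z
      den := fun _ => 1
      diff := fun s hs => ⟨hZ.1 s hs.ne', differentiableAt_const _⟩
      growth := fun b => by
        obtain ⟨C, hC, hC1⟩ := hGW K Z hZ hc hb b
        refine ⟨max C 1, lt_max_of_lt_left hC, fun s hs1 hs2 => ⟨?_, ?_⟩⟩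
        · refine (hC1 s hs1 hs2).trans ?_
          refine mul_le_mul (le_max_left _ _)
            (Real.rpow_le_rpow_of_exponent_le hs2 (le_max_left _ _))
            (Real.rpow_nonneg (by linarith) _) (by positivity)
        · rw [norm_one]
          have e1 : (1:ℝ) ≤ max C 1 := le_max_right _ _
          have e2 : (1:ℝ) ≤ s.im ^ (max C 1) := Real.one_le_rpow hs2 (by linarith)
          nlinarith
      den_ne := fun s _ _ => one_ne_zero
      den_ge := ⟨1, one_pos, fun s _ _ => by simp⟩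
      series := fun s hs1 hs2 => by
        rw [one_mul, hZ.2 s hs1, hser s hs1]
      fe := fun s hs => ?_ }, hZ, rfl, rfl, rfl, hfe⟩
  rw [← hfe s hs, map_one, mul_one, mul_one, one_mul]
  congr 1
  have e1 : ∏ j : Fin (Module.finrank ℚ K), Gammaℂ s * Complex.cos (Real.pi *
      (s - ((if (j : ℕ) < nrRealPlaces K + nrComplexPlaces K then (0:ℝ) else 1 : ℝ) : ℂ)) / 2) =
      (Gammaℂ s * Complex.cos (Real.pi * s / 2)) ^ (nrRealPlaces K + nrComplexPlaces K) *
        (Gammaℂ s * Complex.sin (Real.pi * s / 2)) ^ (nrComplexPlaces K) := by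
    rw [← Pool.Agent.H48.DL.prod_split hn]
    refine Finset.prod_congr rfl fun j _ => ?_
    split_ifs with hj
    · simp
    · rw [← Complex.cos_sub_pi_div_two]
      congr 2
      push_cast
      ring
  rw [e1, ← mul_assoc]
  congr 2
  rw [cpow_def_of_ne_zero hd', ← Complex.ofReal_log hd.le]
  congr 1
  ring

end Pool.Agent.H11.HK
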