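import Pool.Agent.H25.HK.Targets

/-!
# (LP) equality of Euler factors from equality of power sums
-/

set_option autoImplicit false

open Complex

namespace Pool.Agent.H11.HK

open Pool.Agent.H25.HK

theorem lp : T_LP := by
  intro ι _ n a α hα hk X hX
  have hlt : ∀ i j, ‖α i j * X‖ < 1 := fun i j => by
    rw [norm_mul]
    calc ‖α i j‖ * ‖X‖ ≤ 1 * ‖X‖ := mul_le_mul_of_nonneg_right (hα i j) (norm_nonneg _)
      _ < 1 := by simpa using hX
  have hne : ∀ i j, 1 - α i j * X ≠ 0 := fun i j h => by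
    have h1 : α i j * X = 1 := (sub_eq_zero.mp h).symm
    have := hlt i j
    rw [h1] at this
    simp at this
  have h1 : ∀ i j, (1 - α i j * X)⁻¹ = cexp (-Complex.log (1 - α i j * X)) := fun i j => by
    rw [Complex.exp_neg, Complex.exp_log (hne i j)]
  have h2 : ∀ i, (∏ j, (1 - α i j * X)⁻¹) ^ (a i) =
      cexp ((a i : ℂ) * ∑ j, -Complex.log (1 - α i j * X)) := fun i => by
    rw [Complex.exp_int_mul, Complex.exp_sum]
    simp_rw [h1]
  have h3 : ∀ i j, HasSum (fun k : ℕ => (α i j * X) ^ k / k) (-Complex.log (1 - α i j * X)) :=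
    fun i j => Complex.hasSum_taylorSeries_neg_log (hlt i j)
  have h4 : HasSum (fun k : ℕ => ∑ i, (a i : ℂ) * ∑ j, (α i j * X) ^ k / k)
      (∑ i, (a i : ℂ) * ∑ j, -Complex.log (1 - α i j * X)) :=
    hasSum_sum fun i _ => (hasSum_sum fun j _ => h3 i j).mul_left _
  have h5 : (fun k : ℕ => ∑ i, (a i : ℂ) * ∑ j, (α i j * X) ^ k / k) = fun _ => 0 := by
    funext k
    rcases Nat.eq_zero_or_pos k with rfl | hk0
    · simp
    · have : ∑ i, (a i : ℂ) * ∑ j, (α i j * X) ^ k / k =
          (X ^ k / k) * ∑ i, (a i : ℂ) * ∑ j, α i j ^ k := by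
        rw [Finset.mul_sum]
        refine Finset.sum_congr rfl fun i _ => ?_
        rw [Finset.mul_sum, Finset.mul_sum, Finset.mul_sum]
        refine Finset.sum_congr rfl fun j _ => ?_
        rw [mul_pow]
        ring
      rw [this, hk k hk0, mul_zero]
  rw [h5] at h4
  have h6 : ∑ i, (a i : ℂ) * ∑ j, -Complex.log (1 - α i j * X) = 0 := h4.unique hasSum_zero
  simp_rw [h2]
  rw [← Complex.exp_sum, h6, Complex.exp_zero]

end Pool.Agent.H11.HK
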