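import Pool.Agent.H25.HK.Targets

/-!
# (PW) characteristic polynomials and traces of powers
-/

set_option autoImplicit false

open Polynomial

namespace Pool.Agent.H11.HK

open Pool.Agent.H25.HK

theorem detpow {V : Type} [AddCommGroup V] [Module ℂ V]
    [FiniteDimensional ℂ V] (A : Module.End ℂ V) {n : ℕ}
    (α : Fin n → ℂ) (h : ∀ X : ℂ, LinearMap.det (1 - X • A) = ∏ j, (1 - α j * X))
    (k : ℕ) (hk : 1 ≤ k) (X : ℂ) : LinearMap.det (1 - X • A ^ k) = ∏ j, (1 - α j ^ k * X) := by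
  obtain ⟨Y, hY⟩ := IsAlgClosed.exists_pow_nat_eq X (n := k) (by omega)
  have hζ := Complex.isPrimitiveRoot_exp k (by omega)
  have key : ∀ x : ℂ, 1 - x ^ k = ∏ μ ∈ nthRootsFinset k (1:ℂ), (1 - μ * x) := by
    intro x
    have := hζ.pow_sub_pow_eq_prod_sub_mul 1 x (by omega)
    simpa using this
  have hp : (1 - Polynomial.X ^ k : ℂ[X]) =
      ∏ μ ∈ nthRootsFinset k (1:ℂ), (1 - C μ * Polynomial.X) := by
    apply Polynomial.funext
    intro x
    rw [eval_prod]
    simpa using key x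
  have h1 := congrArg (LinearMap.det.comp
    ((aeval (Y • A) : ℂ[X] →ₐ[ℂ] Module.End ℂ V) : ℂ[X] →* Module.End ℂ V)) hp
  rw [map_prod] at h1
  have h2 : ∀ μ : ℂ, (LinearMap.det.comp
    ((aeval (Y • A) : ℂ[X] →ₐ[ℂ] Module.End ℂ V) : ℂ[X] →* Module.End ℂ V))
      (1 - C μ * Polynomial.X) = ∏ j, (1 - μ * (α j * Y)) := by
    intro μ
    have : (aeval (Y • A) : ℂ[X] →ₐ[ℂ] Module.End ℂ V) (1 - C μ * Polynomial.X) =
        1 - (μ * Y) • A := by
      simp [aeval_C, Algebra.algebraMap_eq_smul_one, mul_smul, smul_comm Y μ A]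
    change LinearMap.det ((aeval (Y • A) : ℂ[X] →ₐ[ℂ] Module.End ℂ V) (1 - C μ * Polynomial.X)) = _
    rw [this, h]
    exact Finset.prod_congr rfl fun j _ => by ring
  simp_rw [h2] at h1
  rw [Finset.prod_comm] at h1
  simp_rw [← key] at h1
  have h3 : (aeval (Y • A) : ℂ[X] →ₐ[ℂ] Module.End ℂ V) (1 - Polynomial.X ^ k) =
        1 - X • A ^ k := by
    simp [_root_.smul_pow, hY]
  change LinearMap.det ((aeval (Y • A) : ℂ[X] →ₐ[ℂ] Module.End ℂ V) (1 - Polynomial.X ^ k)) = _ at h1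
  rw [h3] at h1
  rw [h1]
  exact Finset.prod_congr rfl fun j _ => by rw [mul_pow, hY]

theorem trace_one {V : Type} [AddCommGroup V] [Module ℂ V]
    [FiniteDimensional ℂ V] (A : Module.End ℂ V)
    (α : Fin (Module.finrank ℂ V) → ℂ)
    (h : ∀ X : ℂ, LinearMap.det (1 - X • A) = ∏ j, (1 - α j * X)) :
    LinearMap.trace ℂ V A = ∑ j, α j := by
  have hc : A.charpoly = ∏ j, (Polynomial.X - C (α j)) := by
    apply Polynomial.eq_of_infinite_eval_eq
    refine Set.Infinite.mono (s := {0}ᶜ) ?_ (Set.finite_singleton (0:ℂ)).infinite_compl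
    intro T hT
    have hT0 : T ≠ 0 := hT
    change eval T A.charpoly = _
    rw [LinearMap.eval_charpoly, eval_prod]
    have h1 : algebraMap ℂ (Module.End ℂ V) T - A = T • (1 - T⁻¹ • A) := by
      rw [smul_sub, smul_smul, mul_inv_cancel₀ hT0, one_smul, Algebra.algebraMap_eq_smul_one]
    have h2 : T ^ Module.finrank ℂ V = ∏ _j : Fin (Module.finrank ℂ V), T := by simp
    rw [h1, LinearMap.det_smul, h, h2, ← Finset.prod_mul_distrib]
    refine Finset.prod_congr rfl fun j _ => ?_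
    simp only [eval_sub, eval_X, eval_C]
    field_simp
  have hs : A.charpoly.Splits := IsAlgClosed.splits _
  rw [Module.End.trace_eq_sum_roots_charpoly_of_splits hs, hc,
    Polynomial.roots_prod _ _ (Finset.prod_ne_zero_iff.mpr fun j _ => X_sub_C_ne_zero _)]
  simp [List.sum_ofFn]

theorem pw : T_PW := by
  intro V _ _ _ A α h k hk
  exact trace_one (A ^ k) (fun j => α j ^ k) (detpow A α h k hk)

end Pool.Agent.H11.HK
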