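import Pool.Agent.H25.HK.Targets

/-!
# (RT) roots of holomorphic functions
-/

set_option autoImplicit false

open Complex Filter Topology Set

namespace Pool.Agent.H11.HK

open Pool.Agent.H25.HK

/-- the upper half plane -/
def UH : Set ℂ := {s : ℂ | 0 < s.im}

theorem isOpen_UH : IsOpen UH := isOpen_lt continuous_const Complex.continuous_im

theorem convex_UH : Convex ℝ UH := convex_halfSpace_im_gt 0

theorem pre_UH : IsPreconnected UH := convex_UH.isPreconnected

theorem anUH {f : ℂ → ℂ} (hf : ∀ s : ℂ, 0 < s.im → DifferentiableAt ℂ f s) :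
    AnalyticOnNhd ℂ f UH :=
  DifferentiableOn.analyticOnNhd (fun s hs => (hf s hs).differentiableWithinAt) isOpen_UH

theorem rt1 (N : ℕ) (f g : ℂ → ℂ) (hN : 1 ≤ N) (hf : ∀ s : ℂ, 0 < s.im → DifferentiableAt ℂ f s)
    (hg : ∀ s : ℂ, 0 < s.im → DifferentiableAt ℂ g s) (h : ∀ s : ℂ, 0 < s.im → f s ^ N = g s ^ N) :
    ∃ ω : ℂ, ω ^ N = 1 ∧ ∀ s : ℂ, 0 < s.im → f s = ω * g s := by
  by_cases hz : ∀ s : ℂ, 0 < s.im → g s = 0
  · refine ⟨1, one_pow _, fun s hs => ?_⟩
    have h1 := h s hs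
    rw [hz s hs, zero_pow (by omega)] at h1
    rw [hz s hs, mul_zero]
    exact pow_eq_zero_iff (by omega) |>.mp h1
  push Not at hz
  obtain ⟨p, hp, hgp⟩ := hz
  have hω : (f p / g p) ^ N = 1 := by
    rw [div_pow, h p hp, div_self (pow_ne_zero _ hgp)]
  refine ⟨f p / g p, hω, ?_⟩
  have hq : ContinuousAt (fun s => f s / g s) p :=
    (hf p hp).continuousAt.div (hg p hp).continuousAt hgp
  -- finitely many roots of unity
  have hfin : Set.Finite {z : ℂ | z ^ N = 1} := by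
    have := (Polynomial.nthRoots N (1:ℂ)).toFinset.finite_toSet
    refine this.subset fun z hz => ?_
    simp only [Multiset.mem_toFinset, Finset.mem_coe]
    rw [Polynomial.mem_nthRoots (by omega)]
    exact hz
  have hopen : IsOpen ({z : ℂ | z ^ N = 1} \ {f p / g p})ᶜ :=
    (hfin.subset sdiff_subset).isClosed.isOpen_compl
  have hmem : f p / g p ∈ ({z : ℂ | z ^ N = 1} \ {f p / g p})ᶜ := fun hh => hh.2 rfl
  have hev : ∀ᶠ s in 𝓝 p, f s / g s ∈ ({z : ℂ | z ^ N = 1} \ {f p / g p})ᶜ :=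
    hq (hopen.mem_nhds hmem)
  have hev2 : ∀ᶠ s in 𝓝 p, g s ≠ 0 := (hg p hp).continuousAt.eventually_ne hgp
  have hev3 : ∀ᶠ s in 𝓝 p, s ∈ UH := isOpen_UH.mem_nhds hp
  have hev4 : f =ᶠ[𝓝 p] fun s => f p / g p * g s := by
    filter_upwards [hev, hev2, hev3] with s h1 h2 h3
    have h4 : (f s / g s) ^ N = 1 := by
      rw [div_pow, h s h3, div_self (pow_ne_zero _ h2)]
    have h5 : f s / g s = f p / g p := by
      by_contra hne
      exact h1 ⟨h4, hne⟩
    rw [← h5, div_mul_cancel₀ _ h2]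
  have := (anUH hf).eqOn_of_preconnected_of_eventuallyEq
    (anUH (f := fun s => f p / g p * g s) fun s hs => (hg s hs).const_mul _) pre_UH hp hev4
  exact fun s hs => this hs

theorem rt2 (N : ℕ) (Λ A B : ℂ → ℂ) (hN : 1 ≤ N) (hΛ : ∀ s : ℂ, MeromorphicAt Λ s)
    (hA : ∀ s : ℂ, 0 < s.im → DifferentiableAt ℂ A s)
    (hB : ∀ s : ℂ, 0 < s.im → DifferentiableAt ℂ B s)
    (h : ∀ s : ℂ, 1 < s.re → 0 < s.im → DifferentiableAt ℂ Λ s ∧ B s ≠ 0 ∧ Λ s ^ N * B s = A s) :
    ∃ E : ℂ → ℂ, (∀ s : ℂ, 0 < s.im → DifferentiableAt ℂ E s) ∧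
      (∀ s : ℂ, 1 < s.re → 0 < s.im → E s = Λ s * B s) ∧
      (∀ s : ℂ, 0 < s.im → E s ^ N = A s * B s ^ (N - 1)) ∧
      ∀ s : ℂ, 0 < s.im → meromorphicOrderAt Λ s + meromorphicOrderAt B s =
        meromorphicOrderAt E s := by
  have hGan : AnalyticOnNhd ℂ (fun s => A s * B s ^ (N - 1)) UH :=
    anUH fun s hs => (hA s hs).mul ((hB s hs).pow _)
  have hBan : AnalyticOnNhd ℂ B UH := anUH hB
  have hFm : MeromorphicOn (fun s => Λ s * B s) UH := fun s hs =>
    (hΛ s).mul (hBan s hs).meromorphicAt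
  have hFN : MeromorphicOn (fun s => (Λ s * B s) ^ N) UH := fun s hs => (hFm s hs).pow N
  have hH : MeromorphicOn (fun s => (Λ s * B s) ^ N - A s * B s ^ (N - 1)) UH := fun s hs =>
    (hFN s hs).sub (hGan s hs).meromorphicAt
  -- the right region
  have hR : ∀ s : ℂ, 1 < s.re → 0 < s.im → (Λ s * B s) ^ N = A s * B s ^ (N - 1) := by
    intro s h1 h2
    obtain ⟨-, -, h3⟩ := h s h1 h2
    rw [← h3, mul_pow]
    obtain ⟨n, rfl⟩ : ∃ n, N = n + 1 := ⟨N - 1, by omega⟩
    simp only [Nat.add_sub_cancel]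
    ring
  have hRo : IsOpen {s : ℂ | 1 < s.re ∧ 0 < s.im} :=
    (isOpen_lt continuous_const Complex.continuous_re).inter
      (isOpen_lt continuous_const Complex.continuous_im)
  have hp : (⟨2, 1⟩ : ℂ) ∈ {s : ℂ | 1 < s.re ∧ 0 < s.im} := by
    constructor <;> norm_num
  have htop : ∀ z ∈ UH, meromorphicOrderAt (fun s => (Λ s * B s) ^ N - A s * B s ^ (N - 1)) z = ⊤ := by
    intro z hz
    by_contra hne
    have h1 := hH.meromorphicOrderAt_ne_top_of_isPreconnected (y := ⟨2, 1⟩) pre_UH hz hp.2 hne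
    apply h1
    rw [meromorphicOrderAt_eq_top_iff]
    refine (eventually_nhdsWithin_of_eventually_nhds ?_)
    filter_upwards [hRo.mem_nhds hp] with s hs
    rw [hR s hs.1 hs.2, sub_self]
  have hev : ∀ z ∈ UH, (fun s => (Λ s * B s) ^ N) =ᶠ[𝓝[≠] z] fun s => A s * B s ^ (N - 1) := by
    intro z hz
    filter_upwards [meromorphicOrderAt_eq_top_iff.mp (htop z hz)] with s hs
    exact sub_eq_zero.mp hs
  have hord : ∀ z ∈ UH, 0 ≤ meromorphicOrderAt (fun s => Λ s * B s) z := by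
    intro z hz
    have h1 : meromorphicOrderAt (fun s => (Λ s * B s) ^ N) z =
        N * meromorphicOrderAt (fun s => Λ s * B s) z := fun_meromorphicOrderAt_pow (hFm z hz)
    have h2 : 0 ≤ meromorphicOrderAt (fun s => (Λ s * B s) ^ N) z := by
      rw [meromorphicOrderAt_congr (hev z hz)]
      exact (hGan z hz).meromorphicOrderAt_nonneg
    rw [h1] at h2
    cases ho : meromorphicOrderAt (fun s => Λ s * B s) z with
    | top => simp
    | coe m =>
      rw [ho] at h2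
      have h3 : (0 : WithTop ℤ) ≤ (((N : ℤ) * m : ℤ) : WithTop ℤ) := by
        rw [WithTop.coe_mul]
        exact h2
      have h4 : 0 ≤ (N : ℤ) * m := by exact_mod_cast h3
      have h5 : 0 ≤ m := nonneg_of_mul_nonneg_right h4 (by exact_mod_cast hN)
      exact_mod_cast h5
  have hE : ∀ z ∈ UH, AnalyticAt ℂ (toMeromorphicNFOn (fun s => Λ s * B s) UH) z := by
    intro z hz
    have h1 := meromorphicNFOn_toMeromorphicNFOn (fun s => Λ s * B s) UH hz
    rw [← h1.meromorphicOrderAt_nonneg_iff_analyticAt, meromorphicOrderAt_toMeromorphicNFOn hFm hz]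
    exact hord z hz
  have hEev : ∀ z ∈ UH, toMeromorphicNFOn (fun s => Λ s * B s) UH =ᶠ[𝓝[≠] z]
      fun s => Λ s * B s := fun z hz => hFm.toMeromorphicNFOn_eq_self_on_nhdsNE hz
  refine ⟨toMeromorphicNFOn (fun s => Λ s * B s) UH, fun s hs => (hE s hs).differentiableAt,
    ?_, ?_, ?_⟩
  · intro s h1 h2
    obtain ⟨h3, -, -⟩ := h s h1 h2
    have h4 : ContinuousAt (fun s => Λ s * B s) s := (h3.mul (hB s h2)).continuousAt
    exact (((hE s h2).continuousAt.eventuallyEq_nhds_iff_eventuallyEq_nhdsNE h4).mp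
      (hEev s h2)).eq_of_nhds
  · intro s hs
    have h1 : (fun s => toMeromorphicNFOn (fun s => Λ s * B s) UH s ^ N) =ᶠ[𝓝[≠] s]
        fun s => A s * B s ^ (N - 1) := by
      filter_upwards [hEev s hs, hev s hs] with t ht1 ht2
      rw [ht1]
      exact ht2
    exact ((((hE s hs).continuousAt.pow N).eventuallyEq_nhds_iff_eventuallyEq_nhdsNE
      (hGan s hs).continuousAt).mp h1).eq_of_nhds
  · intro s hs
    rw [meromorphicOrderAt_toMeromorphicNFOn hFm hs]
    exact (fun_meromorphicOrderAt_mul (hΛ s) (hBan s hs).meromorphicAt).symm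

theorem rt : T_RT := ⟨rt1, rt2⟩

end Pool.Agent.H11.HK
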