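import Pool.Agent.H25.HK.Targets

/-!
# (TR) traces of the powers of a Frobenius element on the invariants
-/

set_option autoImplicit false

open NumberField

namespace Pool.Agent.H11.HK

open Pool.Agent.H25.HK Pool.Agent.H25

theorem fr_mem (R : DL.ArtinRep) (p : Nat.Primes) (x : 𝓞 R.K) (hx : x ∈ R.P p) :
    R.Fr p • x ∈ R.P p := by
  have h1 := R.Fr_spec p x
  have h2 : x ^ (p : ℕ) ∈ R.P p := Ideal.pow_mem_of_mem _ hx _ p.2.pos
  have := (R.P p).add_mem h1 h2
  simpa using this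

theorem conj_mem (R : DL.ArtinRep) (p : Nat.Primes) (g : R.K ≃ₐ[ℚ] R.K) (hg : g ∈ R.In p) :
    R.Fr p * g * (R.Fr p)⁻¹ ∈ R.In p := by
  intro x
  have h1 := hg ((R.Fr p)⁻¹ • x)
  have h2 := fr_mem R p _ h1
  have h3 : R.Fr p • (g • ((R.Fr p)⁻¹ • x) - (R.Fr p)⁻¹ • x) =
      (R.Fr p * g * (R.Fr p)⁻¹) • x - x := by
    rw [smul_sub, smul_inv_smul, mul_smul, mul_smul]
  rw [h3] at h2
  exact h2

/-- conjugation by the Frobenius element -/
noncomputable def cj (R : DL.ArtinRep) (p : Nat.Primes) : R.In p ≃ R.In p :=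
  Equiv.ofBijective (fun g => ⟨R.Fr p * g * (R.Fr p)⁻¹, conj_mem R p g g.2⟩) (by
    apply Finite.injective_iff_bijective.mp
    intro a b h
    have := congrArg Subtype.val h
    simp only at this
    ext1
    simpa using this)

theorem avg_comm (R : DL.ArtinRep) (p : Nat.Primes) :
    R.rho (R.Fr p) * R.avg (R.In p) = R.avg (R.In p) * R.rho (R.Fr p) := by
  classical
  have : Fintype (R.In p) := Fintype.ofFinite _
  unfold DL.ArtinRep.avg
  rw [mul_smul_comm, smul_mul_assoc, finsum_eq_sum_of_fintype, Finset.mul_sum, Finset.sum_mul]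
  congr 1
  refine Eq.trans ?_ (Equiv.sum_comp (cj R p)
    (fun g : R.In p => R.rho (g : R.K ≃ₐ[ℚ] R.K) * R.rho (R.Fr p)))
  refine Finset.sum_congr rfl fun g _ => ?_
  rw [← map_mul, ← map_mul]
  congr 1
  change R.Fr p * g = (R.Fr p * g * (R.Fr p)⁻¹) * R.Fr p
  group

theorem avg_idem (R : DL.ArtinRep) (H : Subgroup (R.K ≃ₐ[ℚ] R.K)) :
    R.avg H * R.avg H = R.avg H := by
  classical
  have : Fintype H := Fintype.ofFinite _
  have hc : (Nat.card H : ℂ) ≠ 0 := by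
    simp
  unfold DL.ArtinRep.avg
  rw [finsum_eq_sum_of_fintype, smul_mul_assoc, mul_smul_comm, Finset.sum_mul]
  have : ∀ g : H, R.rho (g : R.K ≃ₐ[ℚ] R.K) * ∑ g' : H, R.rho (g' : R.K ≃ₐ[ℚ] R.K) =
      ∑ g' : H, R.rho (g' : R.K ≃ₐ[ℚ] R.K) := by
    intro g
    rw [Finset.mul_sum]
    refine Eq.trans ?_ (Equiv.sum_comp (Equiv.mulLeft g)
      (fun g' : H => R.rho (g' : R.K ≃ₐ[ℚ] R.K)))
    refine Finset.sum_congr rfl fun g' _ => ?_
    rw [← map_mul]
    rfl
  simp_rw [this]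
  rw [Finset.sum_const, Finset.card_univ, ← Nat.card_eq_fintype_card, ← Nat.cast_smul_eq_nsmul ℂ,
    smul_smul (Nat.card H : ℂ)⁻¹ (Nat.card H : ℂ), inv_mul_cancel₀ hc, one_smul]

theorem tr : T_TR := by
  intro R p k hk
  classical
  have : Fintype (R.In p) := Fintype.ofFinite _
  have h1 : R.fr p ^ k = R.rho (R.Fr p ^ k) * R.avg (R.In p) := by
    have hcomm : Commute (R.rho (R.Fr p)) (R.avg (R.In p)) := avg_comm R p
    have hidem : IsIdempotentElem (R.avg (R.In p)) := avg_idem R _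
    unfold DL.ArtinRep.fr
    rw [hcomm.mul_pow, map_pow, hidem.pow_eq (by omega)]
  rw [h1]
  unfold DL.ArtinRep.avg
  rw [finsum_eq_sum_of_fintype, finsum_eq_sum_of_fintype, mul_smul_comm, Finset.mul_sum, map_smul,
    map_sum, smul_eq_mul]
  congr 1
  refine Finset.sum_congr rfl fun g _ => ?_
  rw [← map_mul]

end Pool.Agent.H11.HK
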